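import Pool.Agent.Run7.h506.TA.Stm
import Pool.Agent.W774.TL.Final

/-!
# Piece HSM of project TA
-/

set_option autoImplicit false

namespace Pool.Agent.Run7.h18.TA

open Pool.Agent.W774.TL Pool.Agent.Run7.h506.TA Set Filter Topology
open scoped ContDiff

lemma upd_succ {m : ℕ} (x : X m) (s : ℝ) (i : Fin m) : Function.update x 0 s i.succ = x i.succ :=
  Function.update_of_ne (Fin.succ_ne_zero i) _ _

lemma upd_zero {m : ℕ} (x : X m) (s : ℝ) (i : Fin m) : Function.update x i.succ s 0 = x 0 :=
  Function.update_of_ne (Fin.succ_ne_zero i).symm _ _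

lemma bet_upd {m : ℕ} (x : X m) (s : ℝ) : bet (Function.update x 0 s) = bet x := by
  unfold bet
  simp only [upd_succ]

/-- derivative of the profile in a transversal coordinate. -/
lemma bet_der {m : ℕ} (x : X m) (i : Fin m) :
    HasDerivAt (fun s => bet (Function.update x i.succ s))
      (-(Real.sin (2 * Real.pi * x i.succ) / (2 * Real.pi))) (x i.succ) := by
  unfold bet
  have h : HasDerivAt (fun s => ∑ j : Fin m,
      (1 + Real.cos (2 * Real.pi * Function.update x i.succ s j.succ)) / (4 * Real.pi ^ 2))
      (∑ j : Fin m, if j = i then -(Real.sin (2 * Real.pi * x i.succ) / (2 * Real.pi)) else 0)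
      (x i.succ) := by
    apply HasDerivAt.fun_sum
    intro j _
    by_cases hj : j = i
    · subst hj
      simp only [Function.update_self, if_true]
      have h1 : HasDerivAt (fun s : ℝ => 2 * Real.pi * s) (2 * Real.pi * 1) (x j.succ) :=
        (hasDerivAt_id _).const_mul _
      have h2 := ((h1.cos).const_add 1).div_const (4 * Real.pi ^ 2)
      have h3 : -(Real.sin (2 * Real.pi * x j.succ) / (2 * Real.pi)) =
          (-Real.sin (2 * Real.pi * x j.succ) * (2 * Real.pi * 1)) / (4 * Real.pi ^ 2) := by
        have := Real.pi_pos.ne'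
        field_simp
        ring
      rw [h3]
      exact h2
    · have hne : j.succ ≠ i.succ := fun h => hj (Fin.succ_injective m h)
      simp only [Function.update_of_ne hne, if_neg hj]
      exact hasDerivAt_const _ _
  simpa using h

lemma sum_upd {m : ℕ} (p : X m) (i : Fin m) :
    HasDerivAt (fun s => ∑ j : Fin m, (Function.update p i.succ s j.succ) ^ 2 / 2)
      (p i.succ) (p i.succ) := by
  have h : HasDerivAt (fun s => ∑ j : Fin m, (Function.update p i.succ s j.succ) ^ 2 / 2)
      (∑ j : Fin m, if j = i then p i.succ else 0) (p i.succ) := by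
    apply HasDerivAt.fun_sum
    intro j _
    by_cases hj : j = i
    · subst hj
      simp only [Function.update_self, if_true]
      have h1 := ((hasDerivAt_id (p j.succ)).pow 2).div_const 2
      simpa using h1
    · have hne : j.succ ≠ i.succ := fun h => hj (Fin.succ_injective m h)
      simp only [Function.update_of_ne hne, if_neg hj]
      exact hasDerivAt_const _ _
  simpa using h

theorem t_HSM (hKF : S_KF) : S_HSM := by
  intro m c hc
  obtain ⟨hKs, hK⟩ := hKF c hc
  have hhs := M2.h_smooth smooth der
  refine ⟨?_, ?_, ?_⟩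
  · have h1 : ContDiff ℝ ∞ (fun q : X m × X m × ℝ => h (q.1 0) (q.2.1 0) q.2.2) := by
      have h0 : ContDiff ℝ ∞ (fun q : X m × X m × ℝ => ((q.1 0, q.2.1 0, q.2.2) : ℝ × ℝ × ℝ)) := by
        fun_prop
      exact hhs.comp h0
    have h2 : ContDiff ℝ ∞ (fun q : X m × X m × ℝ => K c (q.2.1 0)) := by
      have h0 : ContDiff ℝ ∞ (fun q : X m × X m × ℝ => q.2.1 0) := by fun_prop
      exact hKs.comp h0
    have h3 : ContDiff ℝ ∞ (fun q : X m × X m × ℝ => bet q.1) := by
      unfold bet
      apply ContDiff.sum
      intro i _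
      have h0 : ContDiff ℝ ∞ (fun q : X m × X m × ℝ => q.1 i.succ) := by fun_prop
      exact (contDiff_const.add (Real.contDiff_cos.comp (contDiff_const.mul h0))).div_const _
    have h4 : ContDiff ℝ ∞ (fun q : X m × X m × ℝ => ∑ i : Fin m, q.2.1 i.succ ^ 2 / 2) := by
      apply ContDiff.sum
      intro i _
      have h0 : ContDiff ℝ ∞ (fun q : X m × X m × ℝ => q.2.1 i.succ) := by fun_prop
      exact (h0.pow 2).div_const _
    exact (h1.sub (h2.mul h3)).add h4
  · intro x v t k l
    have h1 : h (x 0 + k 0) (v 0) (t + l) = h (x 0) (v 0) t := by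
      have h1 : Function.Periodic (fun y => h y (v 0) (t + l)) 1 :=
        fun y => (M2.h_per y (v 0) (t + l)).1
      have h2 : Function.Periodic (fun s => h (x 0) (v 0) s) 1 := fun s => (M2.h_per (x 0) (v 0) s).2
      have h3 := h1.int_mul (k 0) (x 0)
      have h4 := h2.int_mul l t
      simp only [mul_one] at h3 h4
      rw [h3, h4]
    have h2 : bet (m := m) (fun i => x i + k i) = bet x := by
      unfold bet
      refine Finset.sum_congr rfl fun i _ => ?_
      rw [show 2 * Real.pi * (x i.succ + k i.succ) = 2 * Real.pi * x i.succ +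
        k i.succ * (2 * Real.pi) by ring, Real.cos_add_int_mul_two_pi]
    unfold HH
    rw [h2]
    simp only [h1]
  · intro x p t
    refine ⟨?_, ?_, fun i => ⟨?_, ?_⟩⟩
    · unfold Lv HH
      simp only [Function.update_self, upd_succ]
      have h1 := M2.hp_deriv der (x 0) (p 0) t
      have h2 := ((hK (p 0)).1).mul_const (bet x)
      exact ((h1.sub h2).add_const _).deriv
    · unfold Lx HH
      simp only [Function.update_self, bet_upd]
      have h1 := M2.hx_deriv der (x 0) (p 0) t
      exact ((h1.sub_const _).add_const _).deriv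
    · unfold Lv HH
      simp only [upd_zero]
      exact ((sum_upd p i).const_add _).deriv
    · unfold Lx HH
      simp only [upd_zero]
      have h1 := ((bet_der x i).const_mul (K c (p 0))).const_sub (h (x 0) (p 0) t)
      have h2 := (h1.add_const (∑ j : Fin m, p j.succ ^ 2 / 2)).deriv
      rw [h2]
      ring

end Pool.Agent.Run7.h18.TA
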