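import Pool.Agent.Run7.h506.TA.Stm
import Pool.Agent.TH217.TL.Step2

/-!
# Piece LVL of project TA
-/

set_option autoImplicit false

namespace Pool.Agent.Run7.h18.TA

open Pool.Agent.W774.TL Pool.Agent.Run7.h506.TA Set Filter Topology

theorem t_LVL (hST : S_STEP) (hPF : S_POSF) : S_LVL := by
  obtain ⟨A0, h2⟩ := hST
  obtain ⟨K1, hP⟩ := hPF
  obtain ⟨K2, h1⟩ := Pool.Agent.TH217.TL.two2 sum_thm Pool.Agent.W509.TL.DOM1.dom1_thm
    Pool.Agent.W234.TL.dom3_thm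
  obtain ⟨m, hm⟩ := pow_unbounded_of_one_lt (max A0 (10 ^ 11)) (by norm_num : (1 : ℝ) < 3)
  refine ⟨max (max K1 K2) m, ?_⟩
  intro k hk x p x' p' hs N hB
  have hk1 : K1 ≤ k := ((le_max_left _ _).trans (le_max_left _ _)).trans hk
  have hk2 : K2 ≤ k := ((le_max_right _ _).trans (le_max_left _ _)).trans hk
  have hmk : (3 : ℝ) ^ m ≤ 3 ^ k := pow_le_pow_right₀ (by norm_num) ((le_max_right _ _).trans hk)
  have hA : A0 ≤ (3 : ℝ) ^ k := (le_max_left _ _).trans (hm.le.trans hmk)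
  have hL : (10 : ℝ) ^ 11 ≤ (3 : ℝ) ^ k := (le_max_right _ _).trans (hm.le.trans hmk)
  set a : ℝ → ℝ := fun τ => x (τ + (k + 1)) - k * (τ + (k + 1)) - N with ha
  set pp : ℝ → ℝ := fun τ => p (τ + (k + 1)) with hpp
  have hxa : ∀ τ : ℝ, a τ + k * (τ + (k + 1)) + N = x (τ + (k + 1)) := by
    intro τ
    simp only [ha]
    ring
  have hin : ∀ τ ∈ Icc (-1 / 2 : ℝ) (1 / 2), τ + ((k : ℝ) + 1) ∈
      Icc ((k : ℝ) + 1 / 2) (k + 3 / 2) := by
    intro τ hτ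
    constructor
    · linarith [hτ.1]
    · linarith [hτ.2]
  have hsm : 1 / (2 * ((3 : ℝ) ^ k) ^ 2) ≤ 1 / 10 ^ 11 := by
    apply one_div_le_one_div_of_le (by positivity)
    have h0 : (1 : ℝ) ≤ 3 ^ k := one_le_pow₀ (by norm_num)
    nlinarith
  have hbound : ∀ τ ∈ Icc (-1 / 2 : ℝ) (1 / 2),
      (R1 (3 ^ k) τ (a τ) (pp τ) ∨ R3 (3 ^ k) τ (a τ) (pp τ)) →
      |x' (τ + (k + 1)) - k - sg (yy (3 ^ k) τ (a τ) (pp τ))| ≤ 1 / 10 ^ 9 := by
    intro τ hτ hR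
    obtain ⟨-, -, d3⟩ := hs _ (hin τ hτ)
    obtain ⟨d3, -⟩ := d3 (hP k hk1 N τ (a τ) (pp τ) hR).2
    obtain ⟨f1, -⟩ := h1 k hk2 N τ (a τ) (pp τ) hR
    rw [hxa τ] at f1
    have e1 : x' (τ + (k + 1)) - k - sg (yy (3 ^ k) τ (a τ) (pp τ)) =
        (x' (τ + (k + 1)) - hp (x (τ + (k + 1))) (p (τ + (k + 1))) (τ + (k + 1))) +
        (hp (x (τ + (k + 1))) (pp τ) (τ + (k + 1)) - k - sg (yy (3 ^ k) τ (a τ) (pp τ))) := by
      simp only [hpp]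
      ring
    rw [e1]
    refine (abs_add_le _ _).trans ((add_le_add d3 (f1.trans hsm)).trans ?_)
    norm_num
  have hSys : Sys2 (3 ^ k) a pp (fun τ => x' (τ + (k + 1)) - k)
      (fun τ => p' (τ + (k + 1))) (-1 / 2) (1 / 2) := by
    intro τ hτ
    obtain ⟨d1, d2, d4⟩ := hs _ (hin τ hτ)
    refine ⟨?_, ?_, ?_⟩
    · have e1 : HasDerivAt (fun s : ℝ => x (s + (k + 1))) _ τ := d1.comp_add_const τ ((k : ℝ) + 1)
      have e2 : HasDerivAt (fun s : ℝ => (k : ℝ) * (s + (k + 1))) ((k : ℝ) * 1) τ :=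
        ((hasDerivAt_id _).add_const _).const_mul _
      have e3 := (e1.sub e2).sub_const (N : ℝ)
      rw [mul_one] at e3
      exact e3
    · exact d2.comp_add_const τ ((k : ℝ) + 1)
    · intro hR
      refine ⟨hbound τ hτ hR, ?_⟩
      obtain ⟨-, d4⟩ := d4 (hP k hk1 N τ (a τ) (pp τ) hR).2
      obtain ⟨-, f2⟩ := h1 k hk2 N τ (a τ) (pp τ) hR
      rw [hxa τ] at f2
      have f3 : p' (τ + (k + 1)) -
          3 ^ k * ((1 - sg (yy (3 ^ k) τ (a τ) (pp τ))) * Co (a τ) +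
            3 * sg (yy (3 ^ k) τ (a τ) (pp τ)) * Co (a τ - τ)) =
          (fo (x (τ + (k + 1))) (pp τ) (τ + (k + 1)) -
          3 ^ k * ((1 - sg (yy (3 ^ k) τ (a τ) (pp τ))) * Co (a τ) +
            3 * sg (yy (3 ^ k) τ (a τ) (pp τ)) * Co (a τ - τ))) +
          (p' (τ + (k + 1)) - fo (x (τ + (k + 1))) (p (τ + (k + 1))) (τ + (k + 1))) := by
        simp only [hpp]
        ring
      show |p' (τ + (k + 1)) -
          3 ^ k * ((1 - sg (yy (3 ^ k) τ (a τ) (pp τ))) * Co (a τ) +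
            3 * sg (yy (3 ^ k) τ (a τ) (pp τ)) * Co (a τ - τ))| ≤ _
      rw [f3]
      refine (abs_add_le _ _).trans ((add_le_add f2 d4).trans ?_)
      norm_num at hL ⊢
      linarith
  have hm1 : (-1 / 2 : ℝ) + (k + 1) = k + 1 / 2 := by ring
  have hi1 : |a (-1 / 2)| ≤ 1 / 1000 := by
    have : a (-1 / 2) = x ((k : ℝ) + 1 / 2) - k * (k + 1 / 2) - N := by
      simp only [ha]
      rw [hm1]
    rw [this]
    exact hB.1
  have hi2 : |pp (-1 / 2) - 3 ^ k| ≤ 3 ^ k / 1000 := by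
    have : pp (-1 / 2) = p ((k : ℝ) + 1 / 2) := by
      simp only [hpp]
      rw [hm1]
    rw [this]
    exact hB.2
  obtain ⟨c1, c2, c3⟩ := h2 (3 ^ k) hA a pp _ _ hSys hi1 hi2
  refine ⟨?_, ?_, ?_⟩
  · intro t ht
    obtain ⟨ht1, ht2⟩ := ht
    have hτ : t - (k + 1) ∈ Icc (-1 / 2 : ℝ) (1 / 2) := by
      constructor <;> linarith
    have f1 := hbound _ hτ (c1 _ hτ)
    obtain ⟨g1, g2⟩ := hP k hk1 N _ _ _ (c1 _ hτ)
    rw [hxa] at g1
    simp only [sub_add_cancel] at f1 g1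
    simp only [hpp, sub_add_cancel] at g1 g2
    have hs0 := Pool.Agent.W764.TL.sg_nonneg (yy (3 ^ k) (t - (k + 1)) (a (t - (k + 1)))
      (pp (t - (k + 1))))
    refine ⟨?_, g2, g1⟩
    have h4 := (abs_le.1 f1).1
    norm_num at h4
    linarith
  · have hx : (((k + 1 : ℕ) : ℝ)) + 1 / 2 = 1 / 2 + ((k : ℝ) + 1) := by
      push_cast
      ring
    have : x (((k + 1 : ℕ) : ℝ) + 1 / 2) - ((k + 1 : ℕ) : ℝ) * (((k + 1 : ℕ) : ℝ) + 1 / 2) -
        ((N - (k + 1) : ℤ) : ℝ) = a (1 / 2) - 1 / 2 := by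
      rw [hx]
      simp only [ha]
      push_cast
      ring
    rw [this]
    exact c2
  · have hx : (((k + 1 : ℕ) : ℝ)) + 1 / 2 = 1 / 2 + ((k : ℝ) + 1) := by
      push_cast
      ring
    have h5 : p (((k + 1 : ℕ) : ℝ) + 1 / 2) = pp (1 / 2) := by
      rw [hx]
    rw [h5, pow_succ, mul_comm ((3 : ℝ) ^ k) 3]
    exact c3

end Pool.Agent.Run7.h18.TA
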